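import Mathlib
import Pool.Agent.V1195.LscMain

/-!
# Lower semicontinuity of minimal log discrepancies at the fixed point of a toric germ

`ToricGerm n K`: an affine toric variety `X` of dimension `n` over `ℂ` with function field `K` and
with a torus fixed point `P`, given by any strictly convex rational cone of dimension `n`
(simplicial or not). The boundary `B` is an arbitrary effective `ℝ`-divisor on it such that
`K_X + B` is `ℝ`-Cartier at `P`, and `I_1 ^ c_1 ... I_q ^ c_q` is a product of real powers of nonzero
ideals. The minimal log discrepancy at `P` is taken over all prime divisors over the germ. For a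
point `ξ` of `X` with closure `Z ∋ P`, lower semicontinuity at `P` along `Z` is the inequality
`mld (P) ≤ mld (ξ) + dim Z`, that is, `mld (P) ≤ a (v) + dim Z` for all divisors `v` over `X` with
centre `Z`.
-/

set_option autoImplicit false

namespace Pool.Agent.Results.MP_f23696_ag.ToricStrataTriples

open Pool.Agent.H436R3.Fol Pool.Agent.H436R3.KT Pool.Agent.TH165.ACC Pool.Agent.W497.Mld
  Pool.Agent.V1195.Acc Pool.Agent.V1195.Lsc

/-- Let `m ≥ 0` be the minimal log discrepancy at `P` of the triple `(X, B, ∏ I_j ^ c_j)` on a toric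
germ. Let `v` be a prime divisor over `X` whose centre `Z` contains `P`, with log discrepancy `a`.
Here `Z` is given by its prime ideal `J`, and its dimension `z` is the transcendence degree of the
coordinate ring of `Z`. Then `m ≤ a + z` in each of the following cases:
* `v` is a monomial valuation (`B` and the `I_j` are arbitrary);
* the `I_j` are monomial and `Z` is not contained in a component of `B` which meets the torus and
  contains `P`;
* the `I_j` are monomial, `Z` is invariant under the torus and `B` is nondegenerate. -/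
theorem result (n : ℕ) (g : ToricGerm n (FractionRing (MvPolynomial (Fin n) ℂ))) (B : EffDiv g.X)
    (e : LocEq B g.P) (q : ℕ) (I : Fin q → Ideal g.X.R) (c : Fin q → ℝ)
    (hI : ∀ j, I j ≠ ⊥ ∧ 0 ≤ c j) (m : ℝ) (hm0 : 0 ≤ m) (hm : IsTriMld e I c m)
    (v : DVal (FractionRing (MvPolynomial (Fin n) ℂ))) (hv : OverAt g.P v) (a : ℝ)
    (ha : IsTriDisc e I c v a) (J : Ideal g.X.R) (hJ : IsCentre v J) (z : ℕ)
    (hz : Algebra.trdeg ℂ (g.X.R ⧸ J) = z)
    (hcase : IsMonomial n v ∨
      ((∀ j, IsMonIdeal g (I j)) ∧ ∀ w, OnAt g.P w → (∀ i : Fin n, w.ord (cv _ i) = 0) →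
        B.mult w ≠ 0 → ∃ f : g.X.R, w.Pos (f : FractionRing (MvPolynomial (Fin n) ℂ)) ∧ f ∉ J) ∨
      ((∀ j, IsMonIdeal g (I j)) ∧ IsMonIdeal g J ∧ NondegAll g B)) :
    m ≤ a + z :=
  lsc hI hm0 hm hv ha hJ hz hcase

end Pool.Agent.Results.MP_f23696_ag.ToricStrataTriples
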